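import Pool.Agent.MP_106392_al.Final

/-!
# Classification of the factoring subalgebras of the loop algebra of `so₄`

* Every member of the list `InList` is a factoring subalgebra.
* Every factoring subalgebra is equivalent to a member of the list.
-/

set_option autoImplicit false

namespace Pool.Agent.Results.MP_106392_al.So4Factoring

open Pool.Agent.MP_106392_al

/-- Classification of the factoring subalgebras of `so₄((λ))` up to equivalence. -/
theorem result :
    (∀ V : Submodule ℂ (M4 K), InList V → IsFactoring V) ∧
    (∀ U : Submodule ℂ (M4 K), IsFactoring U → ∃ V : Submodule ℂ (M4 K),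
      InList V ∧ Equivalent U V) := by
  refine ⟨?_, fun U hU => ?_⟩
  · rintro V ⟨w', G, D, G', D', hw', hL, rfl⟩
    exact final.1 w' G D G' D' hw' hL
  · obtain ⟨w', G, D, G', D', hw', hL, hE⟩ := final.2 U hU
    exact ⟨_, ⟨w', G, D, G', D', hw', hL, rfl⟩, hE⟩

end Pool.Agent.Results.MP_106392_al.So4Factoring
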